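import Mathlib

namespace Pool.Agent.Results.MP_3984bd_an.Hyper

open Filter Topology

section General

variable {K : Type} [RCLike K] {E : Type} [AddCommGroup E] [Module K E]

theorem smm (b : Module.Basis ℕ K E) (w : ℕ → ℝ) (x : E) :
    Summable fun n => ‖b.repr x n‖ * w n := by
  apply summable_of_ne_finset_zero (s := (b.repr x).support)
  intro n hn
  rw [Finsupp.notMem_support_iff.1 hn]
  simp

noncomputable def wl (b : Module.Basis ℕ K E) (w : ℕ → ℝ) (hw : ∀ n, 0 ≤ w n) : Seminorm K E :=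
  Seminorm.of (fun x => ∑' n, ‖b.repr x n‖ * w n)
    (fun x y => by
      rw [← (smm b w x).tsum_add (smm b w y)]
      refine (smm b w (x + y)).tsum_le_tsum (fun n => ?_) ((smm b w x).add (smm b w y))
      rw [← add_mul, map_add, Finsupp.add_apply]
      exact mul_le_mul_of_nonneg_right (norm_add_le _ _) (hw n))
    (fun a x => by
      rw [← tsum_mul_left]
      refine tsum_congr fun n => ?_
      rw [map_smul, Finsupp.smul_apply, norm_smul, mul_assoc])

theorem wl_apply (b : Module.Basis ℕ K E) (w : ℕ → ℝ) (hw : ∀ n, 0 ≤ w n) (x : E) :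
    wl b w hw x = ∑' n, ‖b.repr x n‖ * w n := rfl

theorem wl_basis (b : Module.Basis ℕ K E) (w : ℕ → ℝ) (hw : ∀ n, 0 ≤ w n) (m : ℕ) :
    wl b w hw (b m) = w m := by
  rw [wl_apply, tsum_eq_single m]
  · simp
  · intro n hn
    simp [Finsupp.single_apply, hn.symm]

theorem wl_ge (b : Module.Basis ℕ K E) (w : ℕ → ℝ) (hw : ∀ n, 0 ≤ w n) (x : E) (G : Finset ℕ) :
    ∑ n ∈ G, ‖b.repr x n‖ * w n ≤ wl b w hw x :=
  (smm b w x).sum_le_tsum G fun n _ => mul_nonneg (norm_nonneg _) (hw n)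

theorem p_le (b : Module.Basis ℕ K E) (p : Seminorm K E) (x : E) :
    p x ≤ ∑ n ∈ (b.repr x).support, ‖b.repr x n‖ * p (b n) := by
  have h : x = ∑ n ∈ (b.repr x).support, b.repr x n • b n := by
    conv_lhs => rw [← b.linearCombination_repr x]
    rw [Finsupp.linearCombination_apply, Finsupp.sum]
  conv_lhs => rw [h]
  refine (Finset.le_sum_of_subadditive p (map_zero p).le (map_add_le_add p) _ _).trans ?_
  refine Finset.sum_le_sum fun n _ => ?_
  rw [map_smul_eq_mul]

def fam (b : Module.Basis ℕ K E) (F : Filter ℕ) :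
    SeminormFamily K E {p : Seminorm K E // Tendsto (fun n => p (b n)) F (𝓝 0)} :=
  fun i => i.1

theorem single_mem (b : Module.Basis ℕ K E) (F : Filter ℕ) (h1 : ∀ m, ({m}ᶜ : Set ℕ) ∈ F)
    (m : ℕ) : ∃ i, ∀ x, ‖b.repr x m‖ ≤ fam b F i x := by
  have hw : ∀ n, (0 : ℝ) ≤ (if n = m then 1 else 0) := fun n => by split_ifs <;> norm_num
  refine ⟨⟨wl b (fun n => if n = m then 1 else 0) hw, ?_⟩, fun x => ?_⟩
  · refine tendsto_const_nhds.congr' ?_
    filter_upwards [h1 m] with n hn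
    rw [wl_basis, if_neg (show ¬ n = m from hn)]
  · have := wl_ge b _ hw x {m}
    simpa [fam] using this

theorem complete (b : Module.Basis ℕ K E) (F : Filter ℕ) (h1 : ∀ m, ({m}ᶜ : Set ℕ) ∈ F)
    (h2 : ∀ S : Set ℕ, S.Infinite → ∃ S' ⊆ S, S'.Infinite ∧ S'ᶜ ∈ F)
    [UniformSpace E] [IsUniformAddGroup E] (hp : WithSeminorms (fam b F)) : CompleteSpace E := by
  refine ⟨fun {f} hf => ?_⟩
  haveI := hf.1
  have key : ∀ i, ∀ ε > 0, ∃ M ∈ f, ∀ x ∈ M, ∀ y ∈ M, fam b F i (x - y) < ε := by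
    intro i ε hε
    have h := (IsUniformAddGroup.cauchy_iff_tendsto f).1 hf
    have h' := (hp.tendsto_nhds _ _).1 h.2 i ε hε
    obtain ⟨M, hM, hM'⟩ := mem_prod_self_iff.1 h'
    refine ⟨M, hM, fun x hx y hy => ?_⟩
    have := hM' (Set.mk_mem_prod hx hy)
    simpa using this
  have hc : ∀ m, ∃ c : K, Tendsto (fun x => b.repr x m) f (𝓝 c) := by
    intro m
    apply CompleteSpace.complete
    rw [Metric.cauchy_iff]
    refine ⟨inferInstance, fun ε hε => ?_⟩
    obtain ⟨i, hi⟩ := single_mem b F h1 m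
    obtain ⟨M, hM, hM'⟩ := key i ε hε
    refine ⟨(fun x => b.repr x m) '' M, image_mem_map hM, ?_⟩
    rintro _ ⟨x, hx, rfl⟩ _ ⟨y, hy, rfl⟩
    rw [dist_eq_norm]
    have := hi (x - y)
    rw [map_sub, Finsupp.sub_apply] at this
    exact this.trans_lt (hM' x hx y hy)
  choose v hv using hc
  have lim : ∀ (w : ℕ → ℝ) (hw : ∀ n, 0 ≤ w n), Tendsto w F (𝓝 0) → ∀ ε > 0, ∃ M ∈ f,
      ∀ x ∈ M, ∀ G : Finset ℕ, ∑ n ∈ G, ‖b.repr x n - v n‖ * w n ≤ ε := by
    intro w hw ht ε hε
    obtain ⟨M, hM, hM'⟩ := key ⟨wl b w hw, by simpa only [wl_basis] using ht⟩ ε hε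
    refine ⟨M, hM, fun x hx G => ?_⟩
    have ht : Tendsto (fun y => ∑ n ∈ G, ‖b.repr x n - b.repr y n‖ * w n) f
        (𝓝 (∑ n ∈ G, ‖b.repr x n - v n‖ * w n)) :=
      tendsto_finsetSum _ fun n _ => ((tendsto_const_nhds.sub (hv n)).norm).mul_const _
    refine le_of_tendsto ht ?_
    filter_upwards [hM] with y hy
    have h3 := wl_ge b w hw (x - y) G
    simp only [map_sub, Finsupp.sub_apply] at h3
    exact h3.trans (hM' x hx y hy).le
  have hfin : (Function.support v).Finite := by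
    by_contra hinf
    obtain ⟨S, hS, hSi, hSF⟩ := h2 _ hinf
    classical
    obtain ⟨M, hM, hM'⟩ := lim (fun n => if n ∈ S then ‖v n‖⁻¹ else 0)
      (fun n => by split_ifs <;> positivity)
      (by
        refine tendsto_const_nhds.congr' ?_
        filter_upwards [hSF] with n hn
        rw [if_neg hn]) (1 / 2) (by norm_num)
    obtain ⟨x, hx⟩ := Filter.nonempty_of_mem hM
    obtain ⟨n, hn, hn'⟩ := hSi.exists_notMem_finset (b.repr x).support
    have h3 := hM' x hx {n}
    have h4 : ‖v n‖ ≠ 0 := norm_ne_zero_iff.2 (hS hn)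
    rw [Finset.sum_singleton, Finsupp.notMem_support_iff.1 hn', if_pos hn, zero_sub, norm_neg,
      mul_inv_cancel₀ h4] at h3
    norm_num at h3
  refine ⟨b.repr.symm (Finsupp.ofSupportFinite v hfin), ?_⟩
  have : Tendsto id f (𝓝 (b.repr.symm (Finsupp.ofSupportFinite v hfin))) := by
    rw [hp.tendsto_nhds]
    intro i ε hε
    obtain ⟨M, hM, hM'⟩ := lim (fun n => i.1 (b n)) (fun n => apply_nonneg _ _) i.2 (ε / 2)
      (by positivity)
    filter_upwards [hM] with x hx
    refine (p_le b _ _).trans_lt ?_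
    refine lt_of_le_of_lt ?_ (half_lt_self hε)
    refine le_trans (le_of_eq ?_)
      (hM' x hx (b.repr (id x - b.repr.symm (Finsupp.ofSupportFinite v hfin))).support)
    refine Finset.sum_congr rfl fun n _ => ?_
    simp only [map_sub, Finsupp.sub_apply, LinearEquiv.apply_symm_apply, id]
    rfl
  exact this

theorem basis_null (b : Module.Basis ℕ K E) (F : Filter ℕ) [TopologicalSpace E]
    (hp : WithSeminorms (fam b F)) : Tendsto b F (𝓝 0) := by
  rw [hp.tendsto_nhds]
  intro i ε hε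
  filter_upwards [i.2.eventually (gt_mem_nhds hε)] with n hn
  rw [sub_zero]
  exact hn

theorem cont (b : Module.Basis ℕ K E) (F : Filter ℕ) [TopologicalSpace E]
    (hp : WithSeminorms (fam b F)) (T : E →ₗ[K] E) (hs : Tendsto (fun n => n + 1) F F)
    (hT : ∀ᶠ n in F, T (b n) = b (n + 1)) : Continuous T := by
  haveI := hp.topologicalAddGroup
  refine WithSeminorms.continuous_of_continuous_comp hp T fun i => ?_
  refine hp.continuous_seminorm ⟨(fam b F i).comp T, ?_⟩
  refine (i.2.comp hs).congr' ?_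
  filter_upwards [hT] with n hn
  rw [Seminorm.comp_apply, hn]
  rfl

end General

section Comb

def kI (n : ℕ) : ℕ := (Nat.unpair (Nat.sqrt n)).1
def kA (n : ℕ) : ℕ := (Nat.unpair (Nat.unpair (Nat.sqrt n)).2).1
def kJ (n : ℕ) : ℕ := n - Nat.sqrt n * Nat.sqrt n

def small (B : Set ℕ) : Prop :=
  ∀ i j, ∀ᶠ a in atTop, {n | n ∈ B ∧ kI n = i ∧ kJ n = j ∧ kA n = a}.Finite

theorem small_mono {B C : Set ℕ} (h : small B) (hC : C ⊆ B) : small C := fun i j =>
  (h i j).mono fun _ ha => ha.subset fun _ hn => ⟨hC hn.1, hn.2⟩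

theorem small_fin {B : Set ℕ} (h : B.Finite) : small B := fun _ _ =>
  Eventually.of_forall fun _ => h.subset fun _ hn => hn.1

def FF : Filter ℕ :=
  Filter.comk small (small_fin Set.finite_empty) (fun _ h _ hs => small_mono h hs)
    (fun s hs t ht i j => ((hs i j).and (ht i j)).mono fun a ha =>
      (ha.1.union ha.2).subset fun n hn => hn.1.elim (fun h => Or.inl ⟨h, hn.2⟩)
        (fun h => Or.inr ⟨h, hn.2⟩))

theorem mem_FF {B : Set ℕ} : B ∈ FF ↔ small Bᶜ := Filter.mem_comk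

theorem FF1 (m : ℕ) : ({m}ᶜ : Set ℕ) ∈ FF := by
  rw [mem_FF, compl_compl]
  exact small_fin (Set.finite_singleton m)

theorem FF2 (S : Set ℕ) (hS : S.Infinite) : ∃ S' ⊆ S, S'.Infinite ∧ S'ᶜ ∈ FF := by
  by_cases h : ∃ i j a, {n | n ∈ S ∧ kI n = i ∧ kJ n = j ∧ kA n = a}.Infinite
  · obtain ⟨i, j, a, h⟩ := h
    refine ⟨_, fun n hn => hn.1, h, ?_⟩
    rw [mem_FF, compl_compl]
    intro i' j'
    filter_upwards [eventually_gt_atTop a] with a' ha'
    refine Set.finite_empty.subset fun n hn => ?_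
    have h1 := hn.1.2.2.2
    have h2 := hn.2.2.2
    omega
  · refine ⟨S, le_rfl, hS, ?_⟩
    rw [mem_FF, compl_compl]
    intro i j
    refine Eventually.of_forall fun a => ?_
    by_contra h'
    exact h ⟨i, j, a, h'⟩

theorem ends (j n : ℕ) (h : Nat.sqrt (n + 1) ≠ Nat.sqrt n) (hj : kJ n = j) : n ≤ j * j + j := by
  have h1 : Nat.sqrt n ≤ Nat.sqrt (n + 1) := Nat.sqrt_le_sqrt (Nat.le_succ n)
  have h2 : Nat.sqrt n + 1 ≤ Nat.sqrt (n + 1) := by omega
  have h3 := Nat.le_sqrt.1 h2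
  have h4 := Nat.sqrt_le n
  unfold kJ at hj
  have h5 : Nat.sqrt n ≤ j := by nlinarith [Nat.sub_add_cancel h4]
  have h6 := Nat.mul_le_mul h5 h5
  omega

theorem kJ_succ (n : ℕ) (h : Nat.sqrt (n + 1) = Nat.sqrt n) : kJ (n + 1) = kJ n + 1 := by
  have h4 := Nat.sqrt_le n
  unfold kJ
  rw [h]
  omega

theorem FF3 : ∀ᶠ n in FF, Nat.sqrt (n + 1) = Nat.sqrt n := by
  refine mem_FF.2 fun i j => Eventually.of_forall fun a => ?_
  exact (Set.finite_le_nat (j * j + j)).subset fun n hn => ends j n hn.1 hn.2.2.1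

theorem FF4 : Tendsto (fun n => n + 1) FF FF := by
  intro B hB
  rw [mem_map, mem_FF]
  intro i j
  filter_upwards [mem_FF.1 hB i (j + 1)] with a ha
  refine ((Set.finite_le_nat (j * j + j)).union
    (ha.preimage (f := fun n => n + 1) (add_left_injective 1).injOn)).subset fun n hn => ?_
  by_cases h : Nat.sqrt (n + 1) = Nat.sqrt n
  · right
    refine ⟨hn.1, ?_, ?_, ?_⟩
    · have := hn.2.1
      unfold kI at this ⊢
      rw [h, this]
    · rw [kJ_succ n h, hn.2.2.1]
    · have := hn.2.2.2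
      unfold kA at this ⊢
      rw [h, this]
  · left
    exact ends j n h hn.2.2.1

theorem FF5 (i d : ℕ) : ∃ᶠ n in FF, kI n = i ∧ kJ n = 0 ∧ d < Nat.sqrt n * Nat.sqrt n := by
  intro h
  obtain ⟨a, ha⟩ := (mem_FF.1 h i 0).exists
  refine Set.infinite_of_injective_forall_mem
    (f := fun m => Nat.pair i (Nat.pair a (m + d + 1)) * Nat.pair i (Nat.pair a (m + d + 1)))
    (fun m m' hm => ?_) (fun m => ?_) ha
  · have h1 := Nat.mul_self_inj.1 hm
    have h2 := (Nat.pair_eq_pair.1 (Nat.pair_eq_pair.1 h1).2).2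
    omega
  · have h1 : kI (Nat.pair i (Nat.pair a (m + d + 1)) * Nat.pair i (Nat.pair a (m + d + 1))) = i := by
      simp [kI]
    have h2 : kJ (Nat.pair i (Nat.pair a (m + d + 1)) * Nat.pair i (Nat.pair a (m + d + 1))) = 0 := by
      simp [kJ]
    refine ⟨?_, h1, h2, by simp [kA]⟩
    simp only [Set.mem_compl_iff, Set.mem_ofPred_eq, not_not]
    refine ⟨h1, h2, ?_⟩
    rw [Nat.sqrt_eq]
    have h3 := Nat.right_le_pair i (Nat.pair a (m + d + 1))
    have h4 := Nat.right_le_pair a (m + d + 1)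
    nlinarith

end Comb

section Poly

open Polynomial

variable {K : Type} [RCLike K]

noncomputable def qq (r : ℕ → K[X]) (k : ℕ) : K[X] :=
  if (r (Nat.unpair k).1).natDegree < k * k then r (Nat.unpair k).1 else 0

noncomputable def aa (r : ℕ → K[X]) (n : ℕ) : K[X] := X ^ kJ n * qq r (Nat.sqrt n)

theorem aa_deg (r : ℕ → K[X]) (n : ℕ) : (aa r n).degree < (X ^ n : K[X]).degree := by
  rw [degree_X_pow]
  unfold aa qq
  split_ifs with h
  · refine degree_le_natDegree.trans_lt ?_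
    have h1 := natDegree_mul_le (p := (X ^ kJ n : K[X])) (q := r (Nat.unpair (Nat.sqrt n)).1)
    rw [natDegree_X_pow] at h1
    have h4 := Nat.sqrt_le n
    have h2 : (X ^ kJ n * r (Nat.unpair (Nat.sqrt n)).1).natDegree < n := by
      unfold kJ at h1 ⊢
      omega
    exact_mod_cast h2
  · rw [mul_zero, degree_zero]
    exact WithBot.bot_lt_coe n

noncomputable def seq (r : ℕ → K[X]) : Polynomial.Sequence K :=
  ⟨fun n => X ^ n - aa r n, fun n => by
    rw [degree_sub_eq_left_of_degree_lt (aa_deg r n), degree_X_pow]⟩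

noncomputable def bb (r : ℕ → K[X]) : Module.Basis ℕ K K[X] :=
  (seq r).basis fun n => by
    have : (seq r n).leadingCoeff = 1 := by
      change (X ^ n - aa r n).leadingCoeff = 1
      rw [leadingCoeff_sub_of_degree_lt (aa_deg r n), leadingCoeff_X_pow]
    rw [this]
    exact isUnit_one

theorem bb_eq (r : ℕ → K[X]) (n : ℕ) : bb r n = X ^ n - aa r n :=
  Polynomial.Sequence.basis_eq_self _ _ _

theorem dense_seq : ∃ r : ℕ → K[X], ∀ [TopologicalSpace K[X]] [IsTopologicalAddGroup K[X]]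
    [ContinuousSMul K K[X]], DenseRange r := by
  obtain ⟨u, hu⟩ := TopologicalSpace.exists_dense_seq K
  obtain ⟨e, he⟩ := exists_surjective_nat (Σ d : ℕ, Fin d → ℕ)
  refine ⟨fun i => ∑ m : Fin (e i).1, u ((e i).2 m) • X ^ (m : ℕ), ?_⟩
  intro _ _ _ x
  have hc : Continuous fun c : Fin (x.natDegree + 1) → K => ∑ m, c m • (X ^ (m : ℕ) : K[X]) :=
    continuous_finsetSum _ fun m _ => (continuous_apply m).smul continuous_const
  have hd : DenseRange (Pi.map fun _ : Fin (x.natDegree + 1) => u) := DenseRange.piMap fun _ => hu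
  have h1 := map_mem_closure hc (hd fun m => x.coeff m)
    (t := Set.range fun i => ∑ m : Fin (e i).1, u ((e i).2 m) • (X ^ (m : ℕ) : K[X])) (by
      rintro _ ⟨g, rfl⟩
      obtain ⟨i, hi⟩ := he ⟨_, g⟩
      refine ⟨i, ?_⟩
      simp only
      rw [hi]
      rfl)
  have h2 : ∑ m : Fin (x.natDegree + 1), x.coeff m • (X ^ (m : ℕ) : K[X]) = x := by
    rw [Fin.sum_univ_eq_sum_range (fun m => x.coeff m • (X ^ m : K[X]))]
    conv_rhs => rw [x.as_sum_range_C_mul_X_pow]
    simp only [smul_eq_C_mul]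
  rwa [h2] at h1

end Poly

theorem result (K : Type) [RCLike K] :
    ∃ (E : Type) (_ : AddCommGroup E) (_ : Module K E) (_ : Module ℝ E) (_ : IsScalarTower ℝ K E)
      (_ : UniformSpace E) (_ : IsUniformAddGroup E),
      ContinuousSMul K E ∧ LocallyConvexSpace ℝ E ∧ T2Space E ∧ CompleteSpace E ∧
      Module.rank K E = Cardinal.aleph0 ∧
      ∃ (T : E →L[K] E) (x : E), Dense (Set.range fun n : ℕ => (T ^ n) x) := by
  obtain ⟨r, hr⟩ := dense_seq (K := K)
  letI : TopologicalSpace (Polynomial K) := (fam (bb r) FF).moduleFilterBasis.topology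
  have hp : WithSeminorms (fam (bb r) FF) := ⟨rfl⟩
  haveI := hp.topologicalAddGroup
  haveI := hp.continuousSMul
  letI : UniformSpace (Polynomial K) := IsTopologicalAddGroup.rightUniformSpace _
  haveI : IsUniformAddGroup (Polynomial K) := isUniformAddGroup_of_addCommGroup
  have h1 : T1Space (Polynomial K) := by
    refine hp.T1_of_separating fun x hx => ?_
    obtain ⟨m, hm⟩ : ∃ m, (bb r).repr x m ≠ 0 := by
      by_contra h
      push Not at h
      exact hx ((bb r).repr.map_eq_zero_iff.1 (Finsupp.ext h))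
    obtain ⟨i, hi⟩ := single_mem (bb r) FF FF1 m
    exact ⟨i, ((norm_pos_iff.2 hm).trans_le (hi x)).ne'⟩
  have hT : Continuous (LinearMap.mulLeft K (Polynomial.X : Polynomial K)) := by
    refine cont (bb r) FF hp _ FF4 ?_
    filter_upwards [FF3] with n hn
    rw [bb_eq, bb_eq, LinearMap.mulLeft_apply, aa, aa, hn, kJ_succ n hn]
    ring
  refine ⟨Polynomial K, inferInstance, inferInstance, inferInstance, inferInstance, inferInstance,
    inferInstance, inferInstance, hp.toLocallyConvexSpace, inferInstance,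
    complete (bb r) FF FF1 FF2 hp, ?_, ⟨_, hT⟩, 1, ?_⟩
  · rw [← (bb r).mk_eq_rank'', Cardinal.mk_nat]
  · have hn : ∀ n : ℕ, ((⟨_, hT⟩ : Polynomial K →L[K] Polynomial K) ^ n) 1 = Polynomial.X ^ n := by
      intro n
      induction n with
      | zero => simp
      | succ n ih =>
        rw [pow_succ', mul_apply_eq_comp, ih, pow_succ']
        rfl
    simp only [hn]
    rw [← dense_closure]
    refine Dense.mono ?_ hr
    rintro _ ⟨i, rfl⟩
    have ht : Tendsto (fun n => r i + bb r n) FF (𝓝 (r i)) := by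
      simpa using (basis_null (bb r) FF hp).const_add (r i)
    refine mem_closure_of_frequently_of_tendsto ?_ ht
    refine (FF5 i (r i).natDegree).mono fun n hn => ⟨n, ?_⟩
    have h2 : (Nat.unpair (Nat.sqrt n)).1 = i := hn.1
    simp only
    rw [bb_eq, aa, hn.2.1, qq, h2, if_pos hn.2.2]
    ring

end Pool.Agent.Results.MP_3984bd_an.Hyper
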